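import Pool.Agent.V7H90.HK.Main
import Pool.Agent.Results.MP_5d4057_al.FreeHybrids

/-!
# The kernels of Hunt's hybrids

In Q1 a nonarithmetic lattice `Γ` of `SU(n, 1)` is to be the image of an amalgamated product
`Γ₀ = Γ₁ ∗_{Γ₃} Γ₂` under a homomorphism `ρ` which is injective on `Γ₁` and `Γ₂`. It is known that `ρ` cannot
be injective. We show how large its kernel is: if `ρ(Γ₃)` has infinite index in `Γ`, then for every
nontrivial normal subgroup `K` of `Γ₀` contained in the kernel of `ρ`, for instance the kernel itself,
the abelianization of `K` is not finitely generated. In the setting of Q1 the index is infinite (a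
lattice of `SU(n, 1)` has no subgroup of finite index isomorphic to a lattice of `SU(n - 2, 1)`). For
`n = 2`, where `Γ₃` is trivial, this is proved here, for all lattices and for all groups `Γ₁`, `Γ₂`.

Proof. The group `Γ₀` acts on chains, integral combinations of the cosets of `K ρ(Γ₃)`, by affine maps:
`Γ₁` acts by translations of the cosets, `Γ₂` by the conjugate of this action by the shift by the base
coset. (In terms of the tree of Bass and Serre: the chain of `g` is the image of the path from the base
vertex to its translate by `g` in the quotient of the tree by `K`.) Restricted to `K` this is a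
homomorphism to a free abelian group, equivariant for the action of `Γ₀` by conjugation. It is not zero
at a nontrivial element of `K` of minimal length, by a cancellation argument; so if the image of `K` were
finitely generated, finitely many cosets would be permuted transitively by `Γ₀`.
-/

set_option autoImplicit false

open Matrix MeasureTheory

namespace Pool.Agent.Results.MP_5d4057_al.HybridKernelsH90

open Pool.Agent.Results.MP_5d4057_al.FreeHybrids (SU IsLattice form)

/-- The relations `i (c) = j (c)`, `c ∈ C`, in the free product of `A` and `B`. -/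
def relations {A B C : Type} [Group A] [Group B] [Group C] (i : C →* A) (j : C →* B) :
    Subgroup (Monoid.Coprod A B) :=
  Subgroup.normalClosure (Set.range fun c => Monoid.Coprod.inl (i c) * (Monoid.Coprod.inr (j c))⁻¹)

instance {A B C : Type} [Group A] [Group B] [Group C] (i : C →* A) (j : C →* B) :
    (relations i j).Normal := Subgroup.normalClosure_normal

/-- The amalgamated product `A ∗_C B` along `i : C → A`, `j : C → B`. -/
def Amalgam {A B C : Type} [Group A] [Group B] [Group C] (i : C →* A) (j : C →* B) : Type :=
  Monoid.Coprod A B ⧸ relations i j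

instance {A B C : Type} [Group A] [Group B] [Group C] (i : C →* A) (j : C →* B) :
    Group (Amalgam i j) := QuotientGroup.Quotient.group (relations i j)

/-- The homomorphism from `A` to the amalgamated product. -/
def left {A B C : Type} [Group A] [Group B] [Group C] (i : C →* A) (j : C →* B) :
    A →* Amalgam i j := (QuotientGroup.mk' (relations i j)).comp Monoid.Coprod.inl

/-- The homomorphism from `B` to the amalgamated product. -/
def right {A B C : Type} [Group A] [Group B] [Group C] (i : C →* A) (j : C →* B) :
    B →* Amalgam i j := (QuotientGroup.mk' (relations i j)).comp Monoid.Coprod.inr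

/-- The homomorphism `ρ` is surjective, and it is injective on `A` and on `B`. -/
def IsHybrid {A B C Q : Type} [Group A] [Group B] [Group C] [Group Q] (i : C →* A) (j : C →* B)
    (ρ : Amalgam i j →* Q) : Prop :=
  Function.Surjective ρ ∧ Function.Injective (ρ.comp (left i j)) ∧
    Function.Injective (ρ.comp (right i j))

/-- The image of `C` under `ρ` has infinite index. -/
def InfiniteIndex {A B C Q : Type} [Group A] [Group B] [Group C] [Group Q] (i : C →* A)
    (j : C →* B) (ρ : Amalgam i j →* Q) : Prop := ((ρ.comp (left i j)).comp i).range.index = 0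

/-- All nontrivial normal subgroups of the group `G` which are contained in the kernel of `ρ` have an
abelianization which is not finitely generated. -/
def LargeKernel {G Q : Type} [Group G] [Group Q] (ρ : G →* Q) : Prop :=
  ∀ K : Subgroup G, K.Normal → K ≤ ρ.ker → K ≠ ⊥ → ¬ Group.FG (Abelianization K)

/-- An element with an eigenvalue of modulus `≠ 1` has infinite order. -/
theorem infinite_of {n : ℕ} (Γ : Subgroup (SU n)) (hn : 1 ≤ n) (h : IsLattice n Γ) : Infinite Γ := by
  obtain ⟨⟨g, hg, v, l, hv, hl, hl1⟩, -⟩ := Pool.Agent.N765.HY.lattice_ok hn Γ h.2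
  by_contra hfin
  rw [not_infinite_iff_finite] at hfin
  obtain ⟨m, hm, hgm⟩ := (isOfFinOrder_iff_pow_eq_one (x := (⟨g, hg⟩ : Γ))).1 (isOfFinOrder_of_finite _)
  have hgm' : g ^ m = 1 := congrArg Subtype.val hgm
  have key : ∀ k : ℕ, Pool.Agent.N765.HY.ap (g ^ k) v = l ^ k • v := by
    intro k
    induction k with
    | zero => simp [Pool.Agent.N765.HY.ap]
    | succ k ih =>
      rw [pow_succ, Pool.Agent.N765.HY.ap_mul, hl]
      have : Pool.Agent.N765.HY.ap (g ^ k) (l • v) = l • Pool.Agent.N765.HY.ap (g ^ k) v := by
        unfold Pool.Agent.N765.HY.ap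
        rw [mulVec_smul]
      rw [this, ih, smul_smul, pow_succ, mul_comm]
  have h1 := key m
  rw [hgm'] at h1
  have h2 : Pool.Agent.N765.HY.ap (1 : Pool.Agent.N765.HY.SU n) v = v := by
    simp [Pool.Agent.N765.HY.ap]
  rw [h2] at h1
  have h3 : (l ^ m - 1) • v = 0 := by rw [sub_smul, one_smul, ← h1, sub_self]
  rcases smul_eq_zero.1 h3 with h4 | h4
  · have h5 : ‖l‖ ^ m = 1 := by
      rw [← norm_pow, sub_eq_zero.1 h4, norm_one]
    exact hl1 ((pow_eq_one_iff_of_nonneg (norm_nonneg _) hm.ne').1 h5)
  · exact hv h4

/-- **The kernels of hybrids.** (1) Let `ρ : A ∗_C B → Q` be surjective, injective on `A` and on `B`, and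
let the image of `C` have infinite index in `Q`. Then every nontrivial normal subgroup of `A ∗_C B`
contained in the kernel of `ρ` has an abelianization which is not finitely generated. (2) The condition
on the index is true if `C` is finite and `Q` is a lattice of `SU(n, 1)`, `n ≥ 1`; so for `n = 2` (then
`C` is trivial) this holds in the setting of Q1. -/
theorem result :
    (∀ (A B C Q : Type) [Group A] [Group B] [Group C] [Group Q] (i : C →* A) (j : C →* B)
      (ρ : Amalgam i j →* Q), IsHybrid i j ρ → InfiniteIndex i j ρ → LargeKernel ρ) ∧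
    ∀ (n : ℕ), 1 ≤ n → ∀ Γ : Subgroup (SU n), IsLattice n Γ →
      ∀ (A B C : Type) [Group A] [Group B] [Group C] [Finite C] (i : C →* A) (j : C →* B)
        (ρ : Amalgam i j →* Γ), IsHybrid i j ρ → LargeKernel ρ := by
  have key : ∀ (A B C Q : Type) [Group A] [Group B] [Group C] [Group Q] (i : C →* A) (j : C →* B)
      (ρ : Amalgam i j →* Q), IsHybrid i j ρ → InfiniteIndex i j ρ → LargeKernel ρ := by
    intro A B C Q _ _ _ _ i j ρ hρ hC K hN hK hK1
    exact Pool.Agent.V7H90.HK.kernel i j ρ hρ.1 hρ.2.1 hρ.2.2 hC K hN hK hK1
  refine ⟨key, ?_⟩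
  intro n hn Γ hΓ A B C _ _ _ _ i j ρ hρ
  have := infinite_of Γ hn hΓ
  refine key A B C Γ i j ρ hρ ?_
  change ((ρ.comp (left i j)).comp i).range.index = 0
  by_contra hne
  have : ((ρ.comp (left i j)).comp i).range.FiniteIndex := ⟨hne⟩
  have : Finite ((ρ.comp (left i j)).comp i).range :=
    Set.finite_range ((ρ.comp (left i j)).comp i)
  exact not_finite_iff_infinite.2 ‹Infinite Γ›
    ((Subgroup.finite_iff_finite_and_finiteIndex (H := ((ρ.comp (left i j)).comp i).range)).2
      ⟨inferInstance, inferInstance⟩)

end Pool.Agent.Results.MP_5d4057_al.HybridKernelsH90
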